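import Mathlib

set_option autoImplicit false

/-!
# Orders of power series over a field

The order is multiplicative, and an element which is integral over the `n`-th power of the order
filtration has order at least `n`.
-/

namespace Pool.Agent.W490.NE1

open MvPowerSeries

variable {σ : Type*} {k : Type*} [Field k]

lemma order_mul_eq (f g : MvPowerSeries σ k) : (f * g).order = f.order + g.order := by
  rcases eq_or_ne f 0 with rfl | hf
  · simp
  rcases eq_or_ne g 0 with rfl | hg
  · simp
  apply le_antisymm _ le_order_mul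
  have hp := ne_zero_iff_order_finite.1 hf
  have hq := ne_zero_iff_order_finite.1 hg
  set p := f.order.toNat
  set q := g.order.toNat
  by_contra hlt
  push Not at hlt
  have h0 := homogeneousComponent_of_lt_order_eq_zero (f := f * g) (p := p + q)
    (by push_cast; rw [hp, hq]; exact hlt)
  rw [homogeneousComponent_mul_of_le_order (f := f) (g := g) (p := p) (q := q) hp.le hq.le] at h0
  rcases mul_eq_zero.1 h0 with h | h
  · exact homogeneousComponent_of_order hp h
  · exact homogeneousComponent_of_order hq h

lemma order_pow_eq (f : MvPowerSeries σ k) (n : ℕ) : (f ^ n).order = n * f.order := by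
  induction n with
  | zero =>
    have h : (1 : MvPowerSeries σ k).order = 0 := by
      have := (one_le_order_iff_constCoeff_eq_zero (f := (1 : MvPowerSeries σ k)))
      by_contra h
      have h1 : 1 ≤ (1 : MvPowerSeries σ k).order := by
        rw [ENat.one_le_iff_ne_zero]; exact h
      rw [this] at h1
      simp at h1
    simp [h]
  | succ n ih => rw [pow_succ, order_mul_eq, ih]; push_cast; ring

lemma order_of_integral {f : MvPowerSeries σ k} {n K : ℕ} (hK : 0 < K)
    (a : ℕ → MvPowerSeries σ k) (ha : ∀ j, ((n * j : ℕ) : ℕ∞) ≤ (a j).order)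
    (h : f ^ K + ∑ j ∈ Finset.range K, a (K - j) * f ^ j = 0) : (n : ℕ∞) ≤ f.order := by
  by_contra hlt
  push Not at hlt
  have hfin : f.order ≠ ⊤ := ne_top_of_lt hlt
  obtain ⟨p, hp⟩ := ENat.ne_top_iff_exists.1 hfin
  rw [← hp] at hlt
  have hpn : p < n := by exact_mod_cast hlt
  have h1 : (f ^ K).order = ((K * p : ℕ) : ℕ∞) := by
    rw [order_pow_eq, ← hp]; push_cast; rfl
  have h2 : ((K * p + 1 : ℕ) : ℕ∞) ≤ (f ^ K).order := by
    apply nat_le_order
    intro d hd
    have hf : f ^ K = - ∑ j ∈ Finset.range K, a (K - j) * f ^ j := eq_neg_of_add_eq_zero_left h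
    rw [hf, map_neg, map_sum, neg_eq_zero]
    apply Finset.sum_eq_zero
    intro j hj
    rw [Finset.mem_range] at hj
    apply coeff_of_lt_order
    rw [order_mul_eq, order_pow_eq, ← hp]
    have h3 : ((n * (K - j) + j * p : ℕ) : ℕ∞) ≤ (a (K - j)).order + (j : ℕ∞) * (p : ℕ∞) := by
      push_cast
      gcongr
      exact_mod_cast ha (K - j)
    refine lt_of_lt_of_le ?_ h3
    have h4 : K * p + 1 ≤ n * (K - j) + j * p := by
      obtain ⟨i, rfl⟩ := Nat.exists_eq_add_of_lt hj
      have : j + i + 1 - j = i + 1 := by omega
      rw [this]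
      nlinarith
    exact_mod_cast lt_of_lt_of_le hd h4
  rw [h1] at h2
  have : K * p + 1 ≤ K * p := by exact_mod_cast h2
  omega

end Pool.Agent.W490.NE1
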