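import Mathlib
import Pool.Agent.W490.NE1.Ord

set_option autoImplicit false

/-!
# The ring `ℚ[[x,y,z]]/(xz,yz)`

It is realised as the quotient of `ℚ[[x,y,z]]` by the kernel of the map to
`ℚ[[x,y]] × ℚ[[z]]`.
-/

namespace Pool.Agent.W490.NE1

open MvPowerSeries

/-- power series in three variables -/
abbrev S := MvPowerSeries (Fin 3) ℚ

/-- the variables `x,y` -/
def e1 : Fin 2 ↪ Fin 3 := Fin.castSuccEmb
/-- the variable `z` -/
def e2 : Fin 1 ↪ Fin 3 := ⟨fun _ => 2, fun _ _ _ => Subsingleton.elim _ _⟩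

/-- setting `z = 0` -/
noncomputable def r1 : S →+* MvPowerSeries (Fin 2) ℚ := (killCompl (R := ℚ) e1 : _ →+* _)
/-- setting `x = y = 0` -/
noncomputable def r2 : S →+* MvPowerSeries (Fin 1) ℚ := (killCompl (R := ℚ) e2 : _ →+* _)

lemma coeff_r1 (f : S) (x : Fin 2 →₀ ℕ) : coeff x (r1 f) = coeff (x.embDomain e1) f :=
  coeff_killCompl _ _
lemma coeff_r2 (f : S) (x : Fin 1 →₀ ℕ) : coeff x (r2 f) = coeff (x.embDomain e2) f :=
  coeff_killCompl _ _

/-- both restrictions -/
noncomputable def rho : S →+* MvPowerSeries (Fin 2) ℚ × MvPowerSeries (Fin 1) ℚ := r1.prod r2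

/-- the ring -/
abbrev R := S ⧸ RingHom.ker rho

/-- the class of a power series -/
noncomputable abbrev mk : S →+* R := Ideal.Quotient.mk (RingHom.ker rho)

/-- restriction to `z = 0` -/
noncomputable def p1 : R →+* MvPowerSeries (Fin 2) ℚ :=
  Ideal.Quotient.lift _ r1 (fun _ hf => (Prod.ext_iff.1 ((RingHom.mem_ker).1 hf)).1)
/-- restriction to `x = y = 0` -/
noncomputable def p2 : R →+* MvPowerSeries (Fin 1) ℚ :=
  Ideal.Quotient.lift _ r2 (fun _ hf => (Prod.ext_iff.1 ((RingHom.mem_ker).1 hf)).2)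

@[simp] lemma p1_mk (f : S) : p1 (mk f) = r1 f := Ideal.Quotient.lift_mk _ _ _
@[simp] lemma p2_mk (f : S) : p2 (mk f) = r2 f := Ideal.Quotient.lift_mk _ _ _

lemma mk_eq_mk {f g : S} (h1 : r1 f = r1 g) (h2 : r2 f = r2 g) : mk f = mk g := by
  rw [Ideal.Quotient.eq, RingHom.mem_ker]
  simp only [rho, RingHom.prod_apply, map_sub, h1, h2, sub_self]

/-- the constant term -/
noncomputable def pi0 : R →+* ℚ := (constantCoeff (σ := Fin 2) (R := ℚ)).comp p1

lemma r1_const (f : S) : constantCoeff (r1 f) = constantCoeff f := by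
  have := coeff_r1 f 0
  simpa using this
lemma r2_const (f : S) : constantCoeff (r2 f) = constantCoeff f := by
  have := coeff_r2 f 0
  simpa using this

@[simp] lemma pi0_mk (f : S) : pi0 (mk f) = constantCoeff f := by
  simp [pi0, r1_const]

lemma pi0_p1 (r : R) : pi0 r = constantCoeff (p1 r) := rfl
lemma pi0_p2 (r : R) : pi0 r = constantCoeff (p2 r) := by
  obtain ⟨f, rfl⟩ := Ideal.Quotient.mk_surjective r
  change pi0 (mk f) = constantCoeff (p2 (mk f))
  simp [r2_const]

instance : Nontrivial R := ⟨0, 1, fun h => by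
  have := congrArg pi0 h
  simp at this⟩

instance : IsLocalRing R := IsLocalRing.of_surjective' mk Ideal.Quotient.mk_surjective

lemma mem_max (r : R) : r ∈ IsLocalRing.maximalIdeal R ↔ pi0 r = 0 := by
  rw [IsLocalRing.mem_maximalIdeal, mem_nonunits_iff]
  constructor
  · intro h
    by_contra h0
    apply h
    obtain ⟨f, rfl⟩ := Ideal.Quotient.mk_surjective r
    change pi0 (mk f) ≠ 0 at h0
    rw [pi0_mk] at h0
    exact ((MvPowerSeries.isUnit_iff_constantCoeff).2 (isUnit_iff_ne_zero.2 h0)).map mk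
  · intro h hu
    exact (isUnit_iff_ne_zero.1 (hu.map pi0)) h

/-- the filtration by the order -/
def F (n : ℕ) : Ideal R where
  carrier := {r | (n : ℕ∞) ≤ (p1 r).order ∧ (n : ℕ∞) ≤ (p2 r).order}
  add_mem' := by
    rintro a b ⟨h1, h2⟩ ⟨h3, h4⟩
    refine ⟨?_, ?_⟩
    · rw [map_add]; exact (le_min h1 h3).trans min_order_le_add
    · rw [map_add]; exact (le_min h2 h4).trans min_order_le_add
  zero_mem' := by simp
  smul_mem' := by
    rintro c a ⟨h1, h2⟩
    simp only [smul_eq_mul, Set.mem_ofPred_eq, map_mul, order_mul_eq]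
    exact ⟨h1.trans le_add_self, h2.trans le_add_self⟩

lemma mem_F {n : ℕ} {r : R} : r ∈ F n ↔ (n : ℕ∞) ≤ (p1 r).order ∧ (n : ℕ∞) ≤ (p2 r).order :=
  Iff.rfl

lemma F_zero : F 0 = ⊤ := by
  ext r; simp [mem_F]

lemma max_eq_F : IsLocalRing.maximalIdeal R = F 1 := by
  ext r
  rw [mem_max, mem_F]
  have h1 := (one_le_order_iff_constCoeff_eq_zero (f := p1 r))
  have h2 := (one_le_order_iff_constCoeff_eq_zero (f := p2 r))
  rw [Nat.cast_one, h1, h2, ← pi0_p1, ← pi0_p2]
  tauto

lemma F_mul {n m : ℕ} {a b : R} (ha : a ∈ F n) (hb : b ∈ F m) : a * b ∈ F (n + m) := by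
  rw [mem_F, map_mul, map_mul, order_mul_eq, order_mul_eq]
  push_cast
  exact ⟨add_le_add ha.1 hb.1, add_le_add ha.2 hb.2⟩

lemma max_pow_le (n : ℕ) : IsLocalRing.maximalIdeal R ^ n ≤ F n := by
  induction n with
  | zero => rw [F_zero]; exact le_top
  | succ n ih =>
    rw [pow_succ, Ideal.mul_le]
    intro a ha b hb
    exact F_mul (ih ha) (max_eq_F ▸ hb)

lemma degree_emb {α β : Type*} (e : α ↪ β) (x : α →₀ ℕ) : (x.embDomain e).degree = x.degree := by
  simp [Finsupp.degree_apply, Finsupp.support_embDomain, Finset.sum_map,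
    Finsupp.embDomain_apply_self]

/-- a lift of the same order -/
lemma exists_lift {n : ℕ} {r : R} (hr : r ∈ F n) : ∃ f : S, mk f = r ∧ (n : ℕ∞) ≤ f.order := by
  obtain ⟨g, rfl⟩ := Ideal.Quotient.mk_surjective r
  change mk g ∈ F n at hr
  rw [mem_F, p1_mk, p2_mk] at hr
  classical
  let f : S := fun d => if d.degree < n then 0 else coeff d g
  have hf : ∀ d, coeff d f = if d.degree < n then 0 else coeff d g := fun d => rfl
  refine ⟨f, mk_eq_mk ?_ ?_, ?_⟩
  · ext x
    rw [coeff_r1, coeff_r1, hf]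
    split_ifs with h
    · have h2 : coeff x (r1 g) = 0 := by
        apply coeff_of_lt_order
        refine lt_of_lt_of_le ?_ hr.1
        rw [degree_emb] at h
        exact_mod_cast h
      rw [coeff_r1] at h2
      exact h2.symm
    · rfl
  · ext x
    rw [coeff_r2, coeff_r2, hf]
    split_ifs with h
    · have h2 : coeff x (r2 g) = 0 := by
        apply coeff_of_lt_order
        refine lt_of_lt_of_le ?_ hr.2
        rw [degree_emb] at h
        exact_mod_cast h
      rw [coeff_r2] at h2
      exact h2.symm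
    · rfl
  · apply nat_le_order
    intro d hd
    rw [hf, if_pos hd]

/-- a power series of order at least `n` is in the `n`-th power of the maximal ideal -/
lemma mem_pow_of_order (n : ℕ) : ∀ f : S, (n : ℕ∞) ≤ f.order →
    f ∈ (Ideal.span {(X 0 : S), X 1, X 2}) ^ n := by
  induction n with
  | zero => intro f _; simp
  | succ n ih =>
    intro f hf
    have hc : ∀ d : Fin 3 →₀ ℕ, d.degree < n + 1 → coeff d f = 0 := fun d hd =>
      coeff_of_lt_order (lt_of_lt_of_le (by exact_mod_cast hd) hf)
    let g0 : S := fun d => coeff (d + Finsupp.single 0 1) f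
    let g1 : S := fun d => if d 0 = 0 then coeff (d + Finsupp.single 1 1) f else 0
    let g2 : S := fun d => if d 0 = 0 ∧ d 1 = 0 then coeff (d + Finsupp.single 2 1) f else 0
    have c0 : ∀ d, coeff d g0 = coeff (d + Finsupp.single 0 1) f := fun _ => rfl
    have c1 : ∀ d, coeff d g1 = if d 0 = 0 then coeff (d + Finsupp.single 1 1) f else 0 :=
      fun _ => rfl
    have c2 : ∀ d, coeff d g2 = if d 0 = 0 ∧ d 1 = 0 then coeff (d + Finsupp.single 2 1) f else 0 :=
      fun _ => rfl
    have hdeg : ∀ (d : Fin 3 →₀ ℕ) (i : Fin 3), (d + Finsupp.single i 1).degree = d.degree + 1 := by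
      intro d i; simp
    have o0 : (n : ℕ∞) ≤ g0.order := by
      apply nat_le_order
      intro d hd
      rw [c0]; apply hc; rw [hdeg]; omega
    have o1 : (n : ℕ∞) ≤ g1.order := by
      apply nat_le_order
      intro d hd
      rw [c1]; split_ifs
      · apply hc; rw [hdeg]; omega
      · rfl
    have o2 : (n : ℕ∞) ≤ g2.order := by
      apply nat_le_order
      intro d hd
      rw [c2]; split_ifs
      · apply hc; rw [hdeg]; omega
      · rfl
    have hsum : f = g0 * X 0 + g1 * X 1 + g2 * X 2 := by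
      ext d
      have hX : ∀ (g : S) (i : Fin 3), coeff d (g * X i) =
          if 1 ≤ d i then coeff (d - Finsupp.single i 1) g else 0 := by
        intro g i
        rw [mul_comm, X, coeff_monomial_mul, one_mul]
        simp [Finsupp.single_le_iff]
      rw [map_add, map_add, hX, hX, hX, c0, c1, c2]
      by_cases h0 : 1 ≤ d 0
      · have e0 : d - Finsupp.single 0 1 + Finsupp.single 0 1 = d := by
          apply tsub_add_cancel_of_le; simpa using h0
        rw [if_pos h0, e0]
        have : ¬ d 0 = 0 := by omega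
        simp [this]
      · have h0' : d 0 = 0 := by omega
        rw [if_neg h0]
        by_cases h1 : 1 ≤ d 1
        · have e1 : d - Finsupp.single 1 1 + Finsupp.single 1 1 = d := by
            apply tsub_add_cancel_of_le; simpa using h1
          have : ¬ d 1 = 0 := by omega
          rw [if_pos h1, e1]
          simp [h0', this]
        · have h1' : d 1 = 0 := by omega
          rw [if_neg h1]
          by_cases h2 : 1 ≤ d 2
          · have e2 : d - Finsupp.single 2 1 + Finsupp.single 2 1 = d := by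
              apply tsub_add_cancel_of_le; simpa using h2
            rw [if_pos h2, e2]
            simp [h0', h1']
          · rw [if_neg h2]
            have hd : d.degree = 0 := by
              rw [Finsupp.degree_eq_sum, Fin.sum_univ_three]; omega
            rw [hc d (by omega)]
            simp
    rw [hsum, pow_succ]
    refine add_mem (add_mem ?_ ?_) ?_
    · exact Ideal.mul_mem_mul (ih _ o0) (Ideal.subset_span (by simp))
    · exact Ideal.mul_mem_mul (ih _ o1) (Ideal.subset_span (by simp))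
    · exact Ideal.mul_mem_mul (ih _ o2) (Ideal.subset_span (by simp))

lemma F_le_pow (n : ℕ) : F n ≤ IsLocalRing.maximalIdeal R ^ n := by
  intro r hr
  obtain ⟨f, rfl, hf⟩ := exists_lift hr
  have h1 := Ideal.mem_map_of_mem mk (mem_pow_of_order n f hf)
  rw [Ideal.map_pow] at h1
  refine Ideal.pow_right_mono ?_ n h1
  rw [Ideal.map_span, Ideal.span_le]
  rintro _ ⟨g, hg, rfl⟩
  simp only [Set.mem_insert_iff, Set.mem_singleton_iff] at hg
  rw [SetLike.mem_coe, mem_max]
  rcases hg with rfl | rfl | rfl <;> simp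

lemma pow_eq_F (n : ℕ) : IsLocalRing.maximalIdeal R ^ n = F n :=
  le_antisymm (max_pow_le n) (F_le_pow n)

end Pool.Agent.W490.NE1
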