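import Mathlib
import Pool.Agent.W490.NE1.Ring

set_option autoImplicit false

/-!
# The completion is reduced, the dimension is two, the powers of the maximal ideal are
integrally closed
-/

namespace Pool.Agent.W490.NE1

open MvPowerSeries IsLocalRing

lemma two_mul_le {o : ℕ∞} {n : ℕ} (h : ((2 * n : ℕ) : ℕ∞) ≤ o + o) : (n : ℕ∞) ≤ o := by
  rcases eq_or_ne o ⊤ with rfl | ho
  · simp
  · obtain ⟨p, rfl⟩ := ENat.ne_top_iff_exists.1 ho
    have : 2 * n ≤ p + p := by exact_mod_cast h
    exact_mod_cast (by omega : n ≤ p)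

lemma sq_mem {n : ℕ} {r : R} (h : r * r ∈ F (2 * n)) : r ∈ F n := by
  rw [mem_F, map_mul, map_mul, order_mul_eq, order_mul_eq] at h
  exact ⟨two_mul_le h.1, two_mul_le h.2⟩

lemma reduced : IsReduced (AdicCompletion (maximalIdeal R) R) := by
  rw [isReduced_iff_pow_one_lt 2 (by norm_num)]
  intro x hx
  obtain ⟨a, rfl⟩ := AdicCompletion.mk_surjective (maximalIdeal R) R x
  change (AdicCompletion.mkₐ (maximalIdeal R) a) ^ 2 = 0 at hx
  change (AdicCompletion.mkₐ (maximalIdeal R) a) = 0
  apply AdicCompletion.ext_evalₐ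
  intro n
  have h1 : AdicCompletion.evalₐ (maximalIdeal R) (2 * n)
      ((AdicCompletion.mkₐ (maximalIdeal R) a) ^ 2) = 0 := by rw [hx, map_zero]
  rw [map_pow, AdicCompletion.evalₐ_mkₐ, pow_two, ← map_mul, Ideal.Quotient.eq_zero_iff_mem,
    pow_eq_F] at h1
  have h2 := sq_mem h1
  rw [map_zero, AdicCompletion.evalₐ_mkₐ, Ideal.Quotient.eq_zero_iff_mem, pow_eq_F]
  have h3 : a.val n ≡ a.val (2 * n) [SMOD ((maximalIdeal R) ^ n • ⊤ : Submodule R R)] :=
    a.property (by omega)
  rw [SModEq.sub_mem] at h3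
  have h4 : a.val n - a.val (2 * n) ∈ F n := by
    rw [← pow_eq_F]
    simpa using h3
  have := add_mem h4 h2
  simpa using this

/-- integral closure of the powers of the maximal ideal -/
lemma integral_iff (n : ℕ) (x : R) : x ∈ F n ↔
    ∃ k : ℕ, 0 < k ∧ ∃ a : ℕ → R, (∀ j, a j ∈ (maximalIdeal R ^ n) ^ j) ∧
      x ^ k + ∑ j ∈ Finset.range k, a (k - j) * x ^ j = 0 := by
  constructor
  · intro hx
    refine ⟨1, one_pos, fun j => if j = 1 then -x else 0, ?_, ?_⟩
    · intro j
      dsimp only
      split_ifs with h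
      · rw [h, pow_one, pow_eq_F]; exact neg_mem hx
      · exact zero_mem _
    · simp
  · rintro ⟨K, hK, a, ha, h⟩
    have ha' : ∀ j, a j ∈ F (n * j) := by
      intro j
      have := ha j
      rwa [← pow_mul, pow_eq_F] at this
    refine ⟨?_, ?_⟩
    · refine order_of_integral hK (fun j => p1 (a j)) (fun j => (ha' j).1) ?_
      have := congrArg p1 h
      simpa using this
    · refine order_of_integral hK (fun j => p2 (a j)) (fun j => (ha' j).2) ?_
      have := congrArg p2 h
      simpa using this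

/-- setting `y = 0` in addition -/
def e3 : Fin 1 ↪ Fin 2 := ⟨fun _ => 0, fun _ _ _ => Subsingleton.elim _ _⟩
/-- restriction to the `x`-axis -/
noncomputable def p3 : R →+* MvPowerSeries (Fin 1) ℚ :=
  (killCompl (R := ℚ) e3 : _ →+* _).comp p1

lemma r1_X0 : r1 (X 0 : S) = X 0 := killCompl_X (R := ℚ) (e := e1) 0
lemma r1_X1 : r1 (X 1 : S) = X 1 := killCompl_X (R := ℚ) (e := e1) 1
lemma r1_X2 : r1 (X 2 : S) = 0 := killCompl_X_eq_zero (R := ℚ) (e := e1) (by decide)
lemma r2_X0 : r2 (X 0 : S) = 0 := killCompl_X_eq_zero (R := ℚ) (e := e2) (by decide)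
lemma r2_X1 : r2 (X 1 : S) = 0 := killCompl_X_eq_zero (R := ℚ) (e := e2) (by decide)
lemma r2_X2 : r2 (X 2 : S) = X 0 := killCompl_X (R := ℚ) (e := e2) 0
lemma p3_X0 : p3 (mk (X 0)) = X 0 := by
  simp only [p3, RingHom.comp_apply, p1_mk, r1_X0]
  exact killCompl_X (R := ℚ) (e := e3) 0
lemma p3_X1 : p3 (mk (X 1)) = 0 := by
  simp only [p3, RingHom.comp_apply, p1_mk, r1_X1]
  exact killCompl_X_eq_zero (R := ℚ) (e := e3) (by decide)

lemma X_ne_zero' {σ : Type*} (i : σ) : (X i : MvPowerSeries σ ℚ) ≠ 0 := by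
  intro h
  have := congrArg (coeff (Finsupp.single i 1)) h
  classical
  simp [coeff_X] at this

instance isDom {σ : Type*} : IsDomain (MvPowerSeries σ ℚ) := NoZeroDivisors.to_isDomain _

lemma dim_ge : (2 : WithBot ℕ∞) ≤ ringKrullDim R := by
  have hp0 : (RingHom.ker p1).IsPrime := RingHom.ker_isPrime _
  have hp3 : (RingHom.ker p3).IsPrime := RingHom.ker_isPrime _
  let P0 : PrimeSpectrum R := ⟨RingHom.ker p1, hp0⟩
  let P1 : PrimeSpectrum R := ⟨RingHom.ker p3, hp3⟩
  let P2 : PrimeSpectrum R := ⟨maximalIdeal R, inferInstance⟩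
  have h01 : P0 < P1 := by
    refine lt_of_le_not_ge ?_ ?_
    · intro r hr
      change r ∈ RingHom.ker p3
      rw [RingHom.mem_ker]
      have hr' : p1 r = 0 := hr
      simp [p3, hr']
    · intro h
      have h1 : mk (X 1) ∈ RingHom.ker p3 := p3_X1
      have h2 : p1 (mk (X 1)) = 0 := h h1
      rw [p1_mk, r1_X1] at h2
      exact X_ne_zero' _ h2
  have h12 : P1 < P2 := by
    refine lt_of_le_not_ge ?_ ?_
    · exact IsLocalRing.le_maximalIdeal hp3.ne_top
    · intro h
      have h1 : mk (X 0) ∈ maximalIdeal R := by rw [mem_max]; simp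
      have h2 : p3 (mk (X 0)) = 0 := h h1
      rw [p3_X0] at h2
      exact X_ne_zero' _ h2
  let l : LTSeries (PrimeSpectrum R) :=
    { length := 2
      toFun := ![P0, P1, P2]
      step := by
        intro i
        fin_cases i
        · exact h01
        · exact h12 }
  exact Order.LTSeries.length_le_krullDim l

lemma xz : mk (X 0) * mk (X 2) = 0 := by
  rw [← map_mul, ← map_zero mk]
  apply mk_eq_mk <;> simp [r1_X2, r2_X0]
lemma yz : mk (X 1) * mk (X 2) = 0 := by
  rw [← map_mul, ← map_zero mk]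
  apply mk_eq_mk <;> simp [r1_X2, r2_X1]

lemma dim_le : ringKrullDim R ≤ 2 := by
  classical
  rw [← IsLocalRing.maximalIdeal_height_eq_ringKrullDim]
  have hmax : maximalIdeal R = Ideal.span {mk (X 0), mk (X 1), mk (X 2)} := by
    apply le_antisymm
    · intro r hr
      rw [max_eq_F] at hr
      obtain ⟨f, rfl, hf⟩ := exists_lift hr
      have h1 := Ideal.mem_map_of_mem mk (mem_pow_of_order 1 f hf)
      rw [pow_one, Ideal.map_span] at h1
      simpa [Set.image_insert_eq] using h1
    · rw [Ideal.span_le]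
      rintro g hg
      simp only [Set.mem_insert_iff, Set.mem_singleton_iff] at hg
      rw [SetLike.mem_coe, mem_max]
      rcases hg with rfl | rfl | rfl <;> simp
  have hmin : maximalIdeal R ∈
      (Ideal.span {mk (X 0), mk (X 1) + mk (X 2)}).minimalPrimes := by
    refine ⟨⟨inferInstance, ?_⟩, ?_⟩
    · rw [Ideal.span_le]
      rintro g hg
      simp only [Set.mem_insert_iff, Set.mem_singleton_iff] at hg
      rw [SetLike.mem_coe, mem_max]
      rcases hg with rfl | rfl <;> simp
    · rintro P ⟨hP, hle⟩ _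
      have h0 : mk (X 0) ∈ P := hle (Ideal.subset_span (by simp))
      have h12 : mk (X 1) + mk (X 2) ∈ P := hle (Ideal.subset_span (by simp))
      have hz : mk (X 2) ∈ P := by
        have : mk (X 2) * mk (X 2) ∈ P := by
          have h := P.mul_mem_right (mk (X 2)) h12
          rwa [add_mul, yz, zero_add] at h
        exact (hP.mem_or_mem this).elim id id
      have hy : mk (X 1) ∈ P := by
        have := sub_mem h12 hz
        simpa using this
      rw [hmax, Ideal.span_le]
      rintro g hg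
      simp only [Set.mem_insert_iff, Set.mem_singleton_iff] at hg
      rcases hg with rfl | rfl | rfl <;> assumption
  have h := Ideal.height_le_card_of_mem_minimalPrimes_span_finset
    (s := {mk (X 0), mk (X 1) + mk (X 2)}) (p := maximalIdeal R) (by simpa using hmin)
  have hc : (({mk (X 0), mk (X 1) + mk (X 2)} : Finset R)).card ≤ 2 := Finset.card_le_two
  have h2 : (maximalIdeal R).height ≤ 2 := h.trans (by exact_mod_cast hc)
  exact WithBot.coe_le_coe.2 h2

lemma dim_eq : ringKrullDim R = ((2 : ℕ) : WithBot ℕ∞) := le_antisymm dim_le dim_ge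

end Pool.Agent.W490.NE1
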