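import Mathlib
import Pool.Agent.W490.NE1.Props

set_option autoImplicit false

/-!
# The lengths of the quotients
-/

namespace Pool.Agent.W490.NE1

open MvPowerSeries IsLocalRing

noncomputable instance algQ : Algebra R ℚ := pi0.toAlgebra

lemma smul_q (r : R) (q : ℚ) : r • q = pi0 r * q := rfl

/-- the graded piece of degree `n ≥ 1` -/
abbrev M (n : ℕ) := (Fin (n + 1) → ℚ) × ℚ

/-- the exponent `(i, n - i)` -/
noncomputable def ex2 (i j : ℕ) : Fin 2 →₀ ℕ := Finsupp.equivFunOnFinite.symm ![i, j]
/-- the exponent `n` -/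
noncomputable def ex1 (n : ℕ) : Fin 1 →₀ ℕ := Finsupp.equivFunOnFinite.symm ![n]

lemma deg_ex2 (i j : ℕ) : (ex2 i j).degree = i + j := by
  simp [Finsupp.degree_eq_sum, ex2]
lemma deg_ex1 (n : ℕ) : (ex1 n).degree = n := by
  simp [Finsupp.degree_eq_sum, ex1]

lemma coeff_mul_of_order {σ : Type*} {f g : MvPowerSeries σ ℚ} {n : ℕ} (hg : (n : ℕ∞) ≤ g.order)
    {d : σ →₀ ℕ} (hd : d.degree = n) : coeff d (f * g) = constantCoeff f * coeff d g := by
  have h := homogeneousComponent_mul_of_le_order (f := f) (g := g) (p := 0) (q := n)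
    (by simp) hg
  have h2 := congrArg (coeff d) h
  rw [coeff_homogeneousComponent, zero_add, if_pos hd] at h2
  rw [h2]
  have h3 : homogeneousComponent 0 f = C (constantCoeff f) := by
    classical
    ext e
    rw [coeff_homogeneousComponent, coeff_C]
    by_cases he : e = 0
    · subst he; simp
    · have : e.degree ≠ 0 := by simpa [Finsupp.degree_eq_zero_iff] using he
      simp [he, this]
  rw [h3, coeff_C_mul, coeff_homogeneousComponent, if_pos hd]

/-- the coefficients of degree `n` -/
noncomputable def psi (n : ℕ) : F n →ₗ[R] M n where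
  toFun r := (fun i => coeff (ex2 i (n - i)) (p1 r.1), coeff (ex1 n) (p2 r.1))
  map_add' := by
    intro a b
    ext i
    · simp
    · simp
  map_smul' := by
    intro c a
    ext i
    · simp only [Submodule.coe_smul, smul_eq_mul, map_mul, RingHom.id_apply, Prod.smul_fst,
        Pi.smul_apply, smul_q]
      rw [coeff_mul_of_order a.2.1 (by rw [deg_ex2]; omega)]
      rfl
    · simp only [Submodule.coe_smul, smul_eq_mul, map_mul, RingHom.id_apply, Prod.smul_snd,
        smul_q]
      rw [coeff_mul_of_order a.2.2 (by rw [deg_ex1]), ← pi0_p2]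

lemma ker_psi (n : ℕ) (r : F n) : psi n r = 0 ↔ r.1 ∈ F (n + 1) := by
  constructor
  · intro h
    have h1 : ∀ i : Fin (n + 1), coeff (ex2 i (n - i)) (p1 r.1) = 0 := fun i =>
      congrFun (Prod.ext_iff.1 h).1 i
    have h2 : coeff (ex1 n) (p2 r.1) = 0 := (Prod.ext_iff.1 h).2
    refine ⟨nat_le_order ?_, nat_le_order ?_⟩
    · intro d hd
      rcases lt_or_eq_of_le (Nat.lt_succ_iff.1 hd) with h | h
      · exact coeff_of_lt_order (lt_of_lt_of_le (by exact_mod_cast h) r.2.1)
      · have hs : d 0 + d 1 = n := by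
          rw [← h, Finsupp.degree_eq_sum, Fin.sum_univ_two]
        have hd' : d = ex2 (⟨d 0, by omega⟩ : Fin (n + 1)) (n - (⟨d 0, by omega⟩ : Fin (n + 1))) := by
          ext j
          fin_cases j
          · simp [ex2]
          · simp only [ex2, Finsupp.equivFunOnFinite_symm_apply_apply]
            simp
            omega
        rw [hd']
        exact h1 _
    · intro d hd
      rcases lt_or_eq_of_le (Nat.lt_succ_iff.1 hd) with h | h
      · exact coeff_of_lt_order (lt_of_lt_of_le (by exact_mod_cast h) r.2.2)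
      · have hd' : d = ex1 n := by
          refine Finsupp.ext fun j => ?_
          fin_cases j
          rw [← h, Finsupp.degree_eq_sum, Fin.sum_univ_one]
          simp [ex1]
        rw [hd']
        exact h2
  · intro h
    ext i
    · change coeff (ex2 i (n - i)) (p1 r.1) = 0
      apply coeff_of_lt_order
      refine lt_of_lt_of_le ?_ h.1
      rw [deg_ex2]
      have := i.2
      exact_mod_cast (by omega : (i : ℕ) + (n - i) < n + 1)
    · change coeff (ex1 n) (p2 r.1) = 0
      apply coeff_of_lt_order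
      refine lt_of_lt_of_le ?_ h.2
      rw [deg_ex1]
      exact_mod_cast (by omega : n < n + 1)

lemma psi_surj (n : ℕ) (hn : 0 < n) : Function.Surjective (psi n) := by
  classical
  rintro ⟨v, w⟩
  let f : S := fun d => if d.degree = n then
    (if h : d 2 = 0 ∧ d 0 < n + 1 then v ⟨d 0, h.2⟩ else if d 0 = 0 ∧ d 1 = 0 then w else 0) else 0
  have hf : ∀ d, coeff d f = if d.degree = n then
    (if h : d 2 = 0 ∧ d 0 < n + 1 then v ⟨d 0, h.2⟩ else if d 0 = 0 ∧ d 1 = 0 then w else 0)
    else 0 := fun _ => rfl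
  have hmem : mk f ∈ F n := by
    rw [mem_F, p1_mk, p2_mk]
    refine ⟨nat_le_order ?_, nat_le_order ?_⟩
    · intro d hd
      rw [coeff_r1, hf, degree_emb, if_neg (by omega)]
    · intro d hd
      rw [coeff_r2, hf, degree_emb, if_neg (by omega)]
  refine ⟨⟨mk f, hmem⟩, ?_⟩
  ext i
  · change coeff (ex2 i (n - i)) (p1 (mk f)) = v i
    rw [p1_mk, coeff_r1, hf, degree_emb, deg_ex2, if_pos (by omega)]
    have h0 : (ex2 i (n - i)).embDomain e1 0 = i := by
      have := Finsupp.embDomain_apply_self e1 (ex2 i (n - i)) 0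
      simpa [e1, ex2] using this
    have h2 : (ex2 i (n - i)).embDomain e1 2 = 0 := by
      apply Finsupp.embDomain_of_notMem_range
      decide
    rw [dif_pos (by rw [h0, h2]; exact ⟨rfl, i.2⟩)]
    congr 1
    ext
    exact h0
  · change coeff (ex1 n) (p2 (mk f)) = w
    rw [p2_mk, coeff_r2, hf, degree_emb, deg_ex1, if_pos rfl]
    have h2 : (ex1 n).embDomain e2 2 = n := by
      have := Finsupp.embDomain_apply_self e2 (ex1 n) 0
      simpa [e2, ex1] using this
    have h0 : (ex1 n).embDomain e2 0 = 0 := by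
      apply Finsupp.embDomain_of_notMem_range
      decide
    have h1 : (ex1 n).embDomain e2 1 = 0 := by
      apply Finsupp.embDomain_of_notMem_range
      decide
    rw [dif_neg (by rw [h2]; omega), if_pos ⟨h0, h1⟩]

lemma length_M (n : ℕ) : Module.length R (M n) = ((n + 2 : ℕ) : ℕ∞) := by
  have hs : Function.Surjective (algebraMap R ℚ) := by
    intro q
    exact ⟨mk (C q), by change pi0 (mk (C q)) = q; simp⟩
  have hr : Module.finrank ℚ (M n) = n + 2 := by simp
  rw [Module.length_eq_of_surjective (S := R) (R := ℚ) (M := M n) hs, Module.length_eq_finrank, hr]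

lemma length_succ (n : ℕ) (hn : 0 < n) :
    Module.length R (R ⧸ F (n + 1)) = Module.length R (R ⧸ F n) + ((n + 2 : ℕ) : ℕ∞) := by
  have hle : F (n + 1) ≤ F n := by
    intro r hr
    exact ⟨le_trans (by exact_mod_cast n.le_succ) hr.1, le_trans (by exact_mod_cast n.le_succ) hr.2⟩
  let g : (R ⧸ F (n + 1)) →ₗ[R] (R ⧸ F n) := Submodule.mapQ (F (n + 1)) (F n) LinearMap.id hle
  have hgm : ∀ r : R, g (Submodule.Quotient.mk r) = Submodule.Quotient.mk r := fun r => rfl
  have hg : Function.Surjective g := by
    intro y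
    obtain ⟨r, rfl⟩ := Submodule.Quotient.mk_surjective _ y
    exact ⟨Submodule.Quotient.mk r, hgm r⟩
  let th : F n →ₗ[R] (R ⧸ F (n + 1)) := (Submodule.mkQ (F (n + 1))).comp (Submodule.subtype (F n))
  have hth : ∀ r : F n, th r = Submodule.Quotient.mk r.1 := fun r => rfl
  have hker : LinearMap.ker th = LinearMap.ker (psi n) := by
    ext r
    rw [LinearMap.mem_ker, LinearMap.mem_ker, ker_psi, hth, Submodule.Quotient.mk_eq_zero]
  have hrange : LinearMap.range th = LinearMap.ker g := by
    ext y
    obtain ⟨r, rfl⟩ := Submodule.Quotient.mk_surjective _ y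
    rw [LinearMap.mem_ker, hgm, Submodule.Quotient.mk_eq_zero]
    constructor
    · rintro ⟨a, ha⟩
      rw [hth, Submodule.Quotient.eq] at ha
      have := sub_mem a.2 (hle ha)
      simpa using this
    · intro h
      exact ⟨⟨r, h⟩, rfl⟩
  have e : M n ≃ₗ[R] LinearMap.ker g :=
    ((psi n).quotKerEquivOfSurjective (psi_surj n hn)).symm.trans
      ((Submodule.quotEquivOfEq _ _ hker.symm).trans
        (th.quotKerEquivRange.trans (LinearEquiv.ofEq _ _ hrange)))
  rw [Module.length_eq_add_of_exact (LinearMap.ker g).subtype g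
    (Submodule.subtype_injective _) hg (LinearMap.exact_subtype_ker_map g), ← e.length_eq,
    length_M, add_comm]

lemma length_one : Module.length R (R ⧸ F 1) = 1 := by
  rw [← max_eq_F]
  have : IsSimpleModule R (R ⧸ maximalIdeal R) :=
    isSimpleModule_iff_isCoatom.2 (Ideal.isMaximal_def.1 inferInstance)
  exact Module.length_eq_one R _

lemma length_eq (n : ℕ) : Module.length R (R ⧸ F (n + 1)) = (((n + 2).choose 2 + n : ℕ) : ℕ∞) := by
  induction n with
  | zero => rw [zero_add, length_one]; rfl
  | succ n ih =>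
    rw [length_succ (n + 1) (by omega), ih]
    have : (n + 1 + 2).choose 2 = (n + 2).choose 2 + (n + 2) := by
      rw [Nat.choose_succ_succ' (n + 2) 1, Nat.choose_one_right]; ring
    rw [this]
    push_cast
    ring

end Pool.Agent.W490.NE1
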